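import Mathlib

set_option autoImplicit false
set_option maxHeartbeats 400000

namespace Pool.Agent.Results.MP_ecc06a_al.Dickson

open Subgroup MulAction

section defs
variable {G : Type} [Group G]

def ceil (P : Set G) : Subgroup G := sInf {M : Subgroup G | IsCoatom M ∧ P ⊆ M}

def Defic (S : Set G) (k : ℕ) : Prop :=
  IsLeast {n | ∃ Q : Finset G, Q.card = n ∧ closure (S ∪ Q) = ⊤} k

def IsOpt (I L : Subgroup G) : Prop :=
  ∃ P : Set G, ceil P = I ∧ closure P ≠ ⊤ ∧ ∃ g, g ∉ P ∧ ceil (insert g P) = L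

lemma sub_ceil (P : Set G) : P ⊆ ceil P := fun _ hx => mem_sInf.2 fun _ hM => hM.2 hx

lemma gen_of [Finite G] {P Q : Set G} (h : closure (ceil P ∪ Q) = ⊤) : closure (P ∪ Q) = ⊤ := by
  by_contra hne
  obtain ⟨M, hM, hle⟩ := (eq_top_or_exists_le_coatom _).resolve_left hne
  rw [closure_le, Set.union_subset_iff] at hle
  have : closure ((ceil P : Set G) ∪ Q) ≤ M :=
    (closure_le _).2 (Set.union_subset (sInf_le (s := {M : Subgroup G | IsCoatom M ∧ P ⊆ M})
      ⟨hM, hle.1⟩) hle.2)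
  exact hM.1 (top_le_iff.1 (h ▸ this))

lemma abstract [Finite G]
    (h1 : ∀ g : G, (∃ M : Subgroup G, IsCoatom M ∧ g ∈ M ∧ Odd (Nat.card M)) ∨
      ∀ h, closure {g, h} ≠ ⊤) (h2 : ∃ g h : G, closure {g, h} = ⊤)
    (h3 : ∀ h : G, closure {1, h} ≠ ⊤) :
    Odd (Nat.card (ceil (∅ : Set G))) ∧ Defic (ceil (∅ : Set G) : Set G) 2 ∧
      ∀ L, IsOpt (ceil (∅ : Set G)) L → ¬ (Even (Nat.card L) ∧ Defic (L : Set G) 1) := by
  classical
  obtain ⟨g, h, hgh⟩ := h2
  refine ⟨?_, ⟨⟨{g, h}, ?_, ?_⟩, ?_⟩, ?_⟩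
  · obtain ⟨M, hM, -, ho⟩ := (h1 g).resolve_right fun hn => hn h hgh
    exact ho.of_dvd_nat (card_dvd_of_le (sInf_le ⟨hM, Set.empty_subset _⟩))
  · refine Finset.card_pair ?_
    rintro rfl
    exact h3 g (top_le_iff.1 (hgh ▸ closure_mono (by simp)))
  · exact top_le_iff.1 (hgh ▸ closure_mono (by rw [Finset.coe_pair]; exact Set.subset_union_right))
  · rintro n ⟨Q, rfl, hQ⟩
    by_contra hlt
    obtain ⟨x, hx⟩ := Finset.card_le_one_iff_subset_singleton.1 (show Q.card ≤ 1 by omega)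
    refine h3 x (top_le_iff.1 (gen_of hQ ▸ closure_mono ?_))
    intro y hy
    simp only [Set.empty_union, Finset.mem_coe] at hy
    simpa using Or.inr (Finset.mem_singleton.1 (hx hy))
  · rintro L ⟨P, hP, -, x, -, rfl⟩ ⟨he, ⟨Q, hQ1, hQ⟩, -⟩
    have hPM : ∀ M : Subgroup G, IsCoatom M → P ⊆ M := fun M hM y hy =>
      (sInf_le ⟨hM, Set.empty_subset _⟩ : ceil (∅ : Set G) ≤ M)
        (show y ∈ ceil (∅ : Set G) from hP ▸ sub_ceil P hy)
    rcases h1 x with ⟨M, hM, hx, ho⟩ | hn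
    · exact Nat.not_even_iff_odd.2 (ho.of_dvd_nat (card_dvd_of_le
        (show ceil (insert x P) ≤ M from sInf_le ⟨hM, Set.insert_subset hx (hPM M hM)⟩))) he
    · obtain ⟨y, rfl⟩ := Finset.card_eq_one.1 hQ1
      obtain ⟨M, hM, hle⟩ := (eq_top_or_exists_le_coatom _).resolve_left (hn y)
      rw [closure_le, Set.insert_subset_iff] at hle
      refine hM.1 (top_le_iff.1 (gen_of hQ ▸ (closure_le _).2 ?_))
      exact Set.union_subset (Set.insert_subset hle.1 (hPM M hM)) (by simpa using hle.2)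

end defs

section field
variable {F : Type} [Field F] [Fintype F] [CharP F 2] (hF : Fintype.card F = 64)
  {a : F} (ha : orderOf a = 63)

omit [Fintype F] in
lemma fr_add (x y : F) (i : ℕ) : (x + y) ^ 4 ^ i = x ^ 4 ^ i + y ^ 4 ^ i := by
  have := add_pow_char_pow x y 2 (2 * i)
  rwa [pow_mul] at this

omit [Fintype F] [CharP F 2] in
lemma cube {e : F} (h : e ^ 3 = 1) (i : ℕ) : e ^ 4 ^ i = e := by
  induction i with
  | zero => simp
  | succ i ih => rw [pow_succ, pow_mul, ih, pow_succ, h, one_mul]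

omit [Fintype F] [CharP F 2] in
include ha in
lemma a63 : a ^ 63 = 1 := ha ▸ pow_orderOf_eq_one a

omit [Fintype F] [CharP F 2] in
include ha in
lemma w3 : (a ^ 21) ^ 3 = 1 := by rw [← pow_mul]; exact a63 ha

def GM (ha : orderOf a = 63) : Submonoid (Equiv.Perm F) where
  carrier := {σ | ∃ (c : F) (i : ℕ) (b : F), c ^ 21 = (a ^ 21) ^ i ∧ ∀ x, σ x = c * x ^ 4 ^ i + b}
  one_mem' := ⟨1, 0, 0, by simp, by simp⟩
  mul_mem' := by
    rintro σ τ ⟨c, i, b, h1, h2⟩ ⟨d, j, e, h3, h4⟩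
    refine ⟨c * d ^ 4 ^ i, j + i, c * e ^ 4 ^ i + b, ?_, fun x => ?_⟩
    · rw [mul_pow, ← pow_mul d, mul_comm (4 ^ i), pow_mul d, h1, h3, cube, ← pow_add, add_comm]
      rw [← pow_mul, mul_comm j, pow_mul, w3 ha, one_pow]
    · rw [Equiv.Perm.mul_apply, h2, h4, fr_add, mul_pow, ← pow_mul, ← pow_add]; ring

def GG (ha : orderOf a = 63) : Subgroup (Equiv.Perm F) where
  toSubmonoid := GM ha
  inv_mem' := by
    intro σ hσ
    have h1 : σ⁻¹ = σ ^ (orderOf σ - 1) := by
      rw [inv_eq_iff_mul_eq_one, ← pow_succ', Nat.sub_add_cancel (orderOf_pos σ), pow_orderOf_eq_one]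
    rw [h1]
    exact (GM ha).pow_mem hσ _

omit [Fintype F] in
lemma two0 (x : F) : x + x = 0 := CharTwo.add_self_eq_zero x

omit [Fintype F] [CharP F 2] in
include ha in
lemma a0 : a ≠ 0 := fun h => by
  have := a63 ha
  simp [h] at this

noncomputable def mk (c : F) (i : ℕ) (b : F) (h : c ^ 21 = (a ^ 21) ^ i) : GG ha :=
  ⟨Equiv.ofBijective (fun x => c * x ^ 4 ^ i + b) (Finite.injective_iff_bijective.1 (by
    intro x y hxy
    have hc : c ≠ 0 := by
      rintro rfl
      exact pow_ne_zero i (pow_ne_zero 21 (a0 ha)) (by simpa using h.symm)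
    have h1 : x ^ 4 ^ i = y ^ 4 ^ i := mul_left_cancel₀ hc (add_right_cancel hxy)
    have h2 : (x + y) ^ 4 ^ i = 0 := by rw [fr_add, h1, two0]
    have h3 := pow_eq_zero_iff (by positivity) |>.1 h2
    rw [← add_left_inj y, h3, two0])), c, i, b, h, fun _ => rfl⟩

@[simp] lemma mk_smul (c : F) (i : ℕ) (b : F) (h : c ^ 21 = (a ^ 21) ^ i) (x : F) :
    mk ha c i b h • x = c * x ^ 4 ^ i + b := rfl

lemma gext {σ τ : GG ha} (h : ∀ x : F, σ • x = τ • x) : σ = τ := Subtype.ext (Equiv.ext h)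

omit [CharP F 2] in
include hF in
lemma p64 (x : F) : x ^ 64 = x := hF ▸ FiniteField.pow_card x

include hF in
lemma key (σ : GG ha) {x y : F} (hxy : x ≠ y) (h : σ • x + x = σ • y + y) :
    ∃ b, ∀ z : F, σ • z = z + b := by
  obtain ⟨σ, c, i, b, h1, h2⟩ := σ
  change σ x + x = σ y + y at h
  refine ⟨b, fun z => ?_⟩
  change σ z = _
  have hd : x + y ≠ 0 := fun h => hxy (by rw [← add_left_inj y, h, two0])
  have h3 : c * (x + y) ^ 4 ^ i = x + y := by
    rw [h2, h2] at h
    rw [fr_add]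
    linear_combination h + two0 (c * y ^ 4 ^ i) - two0 x
  generalize x + y = d at hd h3
  have h4 : (d ^ 21) ^ 3 = 1 := by
    apply mul_left_cancel₀ hd
    rw [← pow_mul, ← pow_succ', mul_one]; exact p64 hF d
  have h5 : (a ^ 21) ^ i = 1 := by
    have := congrArg (· ^ 21) h3
    simp only [mul_pow] at this
    rw [← pow_mul d, mul_comm (4 ^ i), pow_mul d, cube h4, h1] at this
    exact mul_right_cancel₀ (pow_ne_zero 21 hd) (by rw [this, one_mul])
  rw [← pow_mul, ← orderOf_dvd_iff_pow_eq_one, ha] at h5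
  obtain ⟨m, rfl⟩ : 3 ∣ i := by omega
  have h6 : ∀ z : F, z ^ 4 ^ (3 * m) = z := fun z => by
    clear h1 h2 h3 h5
    induction m with
    | zero => simp
    | succ m ih => rw [mul_add, pow_add, pow_mul z, ih]; exact p64 hF z
  rw [h6] at h3
  rw [h2, h6, mul_right_cancel₀ hd (h3.trans (one_mul d).symm), one_mul]

omit [CharP F 2] in
include hF ha in
lemma pow_surj {c : F} (hc : c ≠ 0) : ∃ k, c = a ^ k := by
  classical
  let u : Fˣ := Units.mk0 a (a0 ha)
  have hu : orderOf u = 63 := by rw [← orderOf_units]; exact ha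
  have : zpowers u = ⊤ := eq_top_of_card_eq _ (by
    rw [Nat.card_zpowers, hu, Nat.card_eq_fintype_card, Fintype.card_units, hF])
  obtain ⟨k, hk⟩ := (mem_powers_iff_mem_zpowers (x := u)).2 (this ▸ mem_top (Units.mk0 c hc))
  exact ⟨k, by simpa [u] using (congrArg Units.val hk).symm⟩

include hF in
lemma trans2 : IsMultiplyPretransitive (GG ha) F 2 := by
  have h0 : ∀ p q : F, p ≠ q → ∃ g : GG ha, g • (0 : F) = p ∧ g • (1 : F) = q := fun p q h => by
    obtain ⟨k, hk⟩ := pow_surj hF ha (sub_ne_zero.2 h.symm)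
    exact ⟨mk ha (q - p) k p (by rw [hk, ← pow_mul, ← pow_mul, mul_comm]), by simp, by simp⟩
  refine is_two_pretransitive_iff.2 fun {p q r s} h h' => ?_
  obtain ⟨g, h1, h2⟩ := h0 p q h
  obtain ⟨g', h3, h4⟩ := h0 r s h'
  exact ⟨g' * g⁻¹, by rw [← h1, mul_smul, inv_smul_smul, h3],
    by rw [← h2, mul_smul, inv_smul_smul, h4]⟩

include hF in
lemma coatom (p : F) : IsCoatom (stabilizer (GG ha) p) := by
  have := trans2 hF ha
  have := isPretransitive_of_is_two_pretransitive (G := GG ha) (α := F)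
  exact (isCoatom_stabilizer_iff_preprimitive _ p).2 (isPreprimitive_of_is_two_pretransitive ‹_›)

include hF in
lemma card_stab (p : F) : Nat.card (stabilizer (GG ha) p) = 63 := by
  classical
  have hq : p + 1 ≠ p := by simp
  have : Function.Bijective (fun σ : stabilizer (GG ha) p =>
      (⟨σ.1 • (p + 1), fun h => hq (smul_left_cancel σ.1 (h.trans σ.2.symm))⟩ : {x // x ≠ p})) := by
    constructor
    · intro σ τ h
      have h1 : σ.1 • (p + 1) = τ.1 • (p + 1) := congrArg Subtype.val h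
      have e1 : (σ.1⁻¹ * τ.1) • p = p := (σ⁻¹ * τ).2
      have e2 : (σ.1⁻¹ * τ.1) • (p + 1) = p + 1 := by rw [mul_smul, ← h1, inv_smul_smul]
      obtain ⟨b, hb⟩ := key hF ha (σ.1⁻¹ * τ.1) hq (by rw [e1, e2, two0, two0])
      have hb0 : b = 0 := by simpa [e1] using hb p
      have : σ.1⁻¹ * τ.1 = 1 := gext ha fun x => by simp [hb, hb0]
      exact Subtype.ext (inv_mul_eq_one.1 this)
    · rintro ⟨x, hx⟩
      obtain ⟨g, h1, h2⟩ := is_two_pretransitive_iff.1 (trans2 hF ha) hq.symm hx.symm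
      exact ⟨⟨g, h1⟩, Subtype.ext h2⟩
  rw [Nat.card_eq_of_bijective _ this]
  simp [hF]

omit [Fintype F] [CharP F 2] in
include ha in
lemma ane {k : ℕ} (h0 : 0 < k) (hk : k < 63) : a ^ k ≠ 1 :=
  pow_ne_one_of_lt_orderOf h0.ne' (ha ▸ hk)

lemma not_gen (g : GG ha) (b : F) (hg : ∀ z : F, g • z = z + b) (h : GG ha) :
    closure {g, h} ≠ ⊤ := by
  intro htop
  let l : GG ha →* Function.End F :=
    { toFun := fun σ x => σ • x + σ • (0 : F)
      map_one' := by funext x; simp [Function.End.one_def]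
      map_mul' := by
        rintro ⟨σ, c, i, e, h1, h2⟩ τ
        funext x
        change σ (τ • x) + σ (τ • 0) = σ (τ • x + τ • 0) + σ 0
        simp only [h2, fr_add]
        rw [zero_pow (by positivity)]; ring }
  have hl : l.toHomUnits g = 1 := Units.ext (by
    funext x
    change g • x + g • (0 : F) = x
    rw [hg, hg, zero_add, add_assoc, two0, add_zero])
  have hz : ∀ σ, l.toHomUnits σ ∈ zpowers (l.toHomUnits h) := fun σ => by
    have : closure {g, h} ≤ (zpowers (l.toHomUnits h)).comap l.toHomUnits := by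
      rw [closure_le, Set.insert_subset_iff]
      exact ⟨by simp [hl], by simp⟩
    exact this (htop ▸ mem_top σ)
  have z21 : (a ^ 9) ^ 21 = (a ^ 21) ^ 0 := by
    rw [← pow_mul, show 9 * 21 = 63 * 3 from rfl, pow_mul, a63 ha]; simp
  obtain ⟨m, hm⟩ := hz (mk ha (a ^ 9) 0 0 z21)
  obtain ⟨n, hn⟩ := hz (mk ha a 1 0 (by simp))
  have hc := (Commute.refl (l.toHomUnits h)).zpow_zpow m n
  simp only at hm hn
  rw [hm, hn] at hc
  have := congrArg (fun v : (Function.End F)ˣ => v.1 1) hc.eq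
  change l _ (l _ 1) = l _ (l _ 1) at this
  simp only [l, MonoidHom.coe_mk, OneHom.coe_mk, mk_smul] at this
  refine ane ha (k := 27) (by norm_num) (by norm_num) (mul_left_cancel₀ (pow_ne_zero 10 (a0 ha)) ?_)
  linear_combination -this

include hF in
lemma gen2 : ∃ g h : GG ha, closure {g, h} = ⊤ := by
  have z21 : (a ^ 9) ^ 21 = (a ^ 21) ^ 0 := by
    rw [← pow_mul, show 9 * 21 = 63 * 3 from rfl, pow_mul, a63 ha]; simp
  have w21 : (a ^ 21) ^ 21 = (a ^ 21) ^ 0 := by
    rw [← pow_mul, show 21 * 21 = 63 * 7 from rfl, pow_mul, a63 ha]; simp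
  have hw : (a ^ 21) ^ 2 + a ^ 21 + 1 = 0 := by
    apply mul_left_cancel₀ (sub_ne_zero.2 (ane ha (k := 21) (by norm_num) (by norm_num)))
    linear_combination w3 ha
  let g := mk ha (a ^ 9) 0 1 z21
  let h := mk ha a 1 0 (by simp)
  let u := mk ha (a ^ 21) 0 0 w21
  let m := mk ha (a ^ 9) 0 0 z21
  let T := fun b : F => mk ha 1 0 b (by simp)
  refine ⟨g, h, ?_⟩
  set K := closure {g, h}
  have hg : g ∈ K := subset_closure (by simp)
  have hh : h ∈ K := subset_closure (by simp)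
  have h3 : h ^ 3 = u := gext ha fun x => by
    simp only [pow_succ, pow_zero, one_mul, mul_smul, h, u, mk_smul]
    linear_combination a ^ 21 * p64 hF x
  have hu : u ∈ K := h3 ▸ K.pow_mem hh 3
  have e1 : T (1 + a ^ 21) * (u * g) = g * u := gext ha fun x => by
    simp only [mul_smul, T, g, u, mk_smul]
    linear_combination two0 (a ^ 21)
  have hT : T (1 + a ^ 21) ∈ K := by
    rw [eq_mul_inv_of_mul_eq e1]
    exact K.mul_mem (K.mul_mem hg hu) (K.inv_mem (K.mul_mem hu hg))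
  have e2 : T 1 * u = u * T (1 + a ^ 21) := gext ha fun x => by
    simp only [mul_smul, T, u, mk_smul]
    linear_combination two0 (1 : F) - hw
  have hT1 : T 1 ∈ K := by
    rw [eq_mul_inv_of_mul_eq e2]
    exact K.mul_mem (K.mul_mem hu hT) (K.inv_mem hu)
  have e3 : T 1 * m = g := gext ha fun x => by simp [mul_smul, T, g, m]
  have hm : m ∈ K := (K.mul_mem_cancel_left hT1).1 (e3 ▸ hg)
  have o7 : orderOf m = 7 := by
    have : Fact (Nat.Prime 7) := ⟨by norm_num⟩
    refine orderOf_eq_prime (gext ha fun x => ?_) fun h => ane ha (k := 9) (by norm_num)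
      (by norm_num) (by simpa [m] using congrArg (· • (1 : F)) h)
    simp only [pow_succ, pow_zero, one_mul, mul_smul, m, mk_smul, one_smul]
    linear_combination x * a63 ha
  have o9 : orderOf h = 3 ^ (1 + 1) := by
    refine orderOf_eq_prime_pow (fun h1 => ane ha (k := 21) (by norm_num) (by norm_num) ?_) ?_
    · rw [pow_one, h3] at h1
      simpa [u] using congrArg (· • (1 : F)) h1
    · rw [show 3 ^ (1 + 1) = 3 * 3 from rfl, pow_mul, h3]
      refine gext ha fun x => ?_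
      simp only [pow_succ, pow_zero, one_mul, mul_smul, u, mk_smul, one_smul]
      linear_combination x * a63 ha
  have hS : stabilizer (GG ha) (0 : F) ⊓ K = stabilizer (GG ha) (0 : F) := by
    refine eq_of_le_of_card_ge inf_le_left (Nat.le_of_dvd Nat.card_pos ?_)
    rw [card_stab hF ha]
    have d7 := Subgroup.orderOf_dvd_natCard (stabilizer (GG ha) (0 : F) ⊓ K) (x := m)
      ⟨by simp [m], hm⟩
    have d9 := Subgroup.orderOf_dvd_natCard (stabilizer (GG ha) (0 : F) ⊓ K) (x := h)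
      ⟨by simp [h], hh⟩
    rw [o7] at d7
    rw [o9] at d9
    omega
  refine (coatom hF ha 0).2 K (lt_of_le_of_ne (inf_eq_left.1 hS) fun e => ?_)
  simpa [T] using (e ▸ hT1 : T 1 ∈ stabilizer (GG ha) (0 : F))

include hF in
lemma fin : Even (Nat.card (GG ha)) ∧
    Odd (Nat.card (ceil (∅ : Set (GG ha)))) ∧ Defic (ceil (∅ : Set (GG ha)) : Set (GG ha)) 2 ∧
      ∀ L, IsOpt (ceil (∅ : Set (GG ha))) L → ¬ (Even (Nat.card L) ∧ Defic (L : Set (GG ha)) 1) := by
  refine ⟨?_, abstract (fun g => ?_) (gen2 hF ha) (not_gen ha 1 0 (by simp))⟩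
  · have : orderOf (mk ha 1 0 1 (by simp)) = 2 :=
      orderOf_eq_prime (gext ha fun x => by simp [pow_two, mul_smul, add_assoc, two0])
        fun h => by simpa using congrArg (· • (0 : F)) h
    exact even_iff_two_dvd.2 (this ▸ orderOf_dvd_natCard _)
  · by_cases hi : Function.Injective fun x : F => g • x + x
    · obtain ⟨p, hp⟩ := Finite.injective_iff_surjective.1 hi 0
      refine Or.inl ⟨_, coatom hF ha p, ?_, by rw [card_stab hF ha]; decide⟩
      exact add_right_cancel (hp.trans (two0 p).symm)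
    · obtain ⟨x, y, h1, h2⟩ := Function.not_injective_iff.1 hi
      obtain ⟨b, hb⟩ := key hF ha g h2 h1
      exact Or.inr (not_gen ha g b hb)

end field

theorem result : ∃ (G : Type) (_ : Group G) (_ : Finite G), Even (Nat.card G) ∧
    ∃ (k : ℕ) (P : Set G), Odd (Nat.card (ceil P)) ∧ Defic (ceil P : Set G) (k + 1) ∧
      ∀ L : Subgroup G, IsOpt (ceil P) L → ¬ (Even (Nat.card L) ∧ Defic (L : Set G) k) := by
  let F := GaloisField 2 6
  have := Fintype.ofFinite F
  have hF : Fintype.card F = 64 := by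
    rw [← Nat.card_eq_fintype_card]; exact GaloisField.card 2 6 (by norm_num)
  obtain ⟨u, hu⟩ := IsCyclic.exists_ofOrder_eq_natCard (α := Fˣ)
  have ha : orderOf (u : F) = 63 := by
    classical
    rw [orderOf_units, hu, Nat.card_eq_fintype_card, Fintype.card_units, hF]
  obtain ⟨h1, h2⟩ := fin hF ha
  exact ⟨GG ha, inferInstance, inferInstance, h1, 1, ∅, h2⟩

end Pool.Agent.Results.MP_ecc06a_al.Dickson
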